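import Pool.Agent.helper9.HX.Spec
import Pool.Agent.helper9.HQ.DC

set_option autoImplicit false

open scoped Classical

namespace Pool.Agent.helper9.HX

open Finset
open Pool.Agent.helper65.HC (V IsEig IsTop lam)
open Pool.Agent.helper9.HQ (Fam Dn E N Le hi c DC_fl DC_st DC_tot)

theorem TRN : TRN_stmt := by
  intro d m W f hW hm
  rcases Nat.eq_zero_or_pos m with h0 | h0
  · have h1 : W = ∅ := Finset.card_eq_zero.1 (by omega)
    subst h1
    unfold Ef N
    simp
  · have hm' : m ≤ (univ : Fam d).card := by
      rw [Finset.card_univ, Fintype.card_finset, Fintype.card_fin]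
      exact hm
    obtain ⟨W', hWW, _, hc⟩ := Finset.exists_subsuperset_card_eq (Finset.subset_univ W) hW hm'
    set U : Finset (V d) := W'.map DC_st.symm.toEmbedding with hU
    have hUc : U.card = m := by rw [hU, Finset.card_map, hc]
    obtain ⟨t, ht⟩ := Pool.Agent.helper65.HC.isTop_exists U (Finset.card_pos.1 (by omega))
    set g : Finset (Fin d) → ℝ := fun s => if s ∈ W then f s else 0 with hg
    have hgW : ∀ s ∈ W, g s = f s := fun s hs => if_pos hs
    have hgo : ∀ s, s ∉ W → g s = 0 := fun s hs => if_neg hs
    have hR := Pool.Agent.helper65.HC.rayleigh ht (fun x => g (DC_st x)) (by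
      intro x hx
      apply hgo
      intro h1
      apply hx
      rw [hU, Finset.mem_map]
      exact ⟨DC_st x, hWW h1, by simp⟩)
    have h1 : ∑ x, g (DC_st x) * ∑ i, g (DC_st (Pool.Agent.helper65.HC.flip i x)) = DC_tot g := by
      unfold DC_tot
      rw [Finset.sum_comm, ← Equiv.sum_comp DC_st]
      refine Finset.sum_congr rfl fun x _ => ?_
      rw [Finset.mul_sum]
      refine Finset.sum_congr rfl fun i _ => ?_
      rw [HQ.DC_st_flip]
    have h2 : ∑ x, g (DC_st x) ^ 2 = N W f := by
      rw [Equiv.sum_comp DC_st (fun s => g s ^ 2)]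
      unfold N
      rw [← Finset.sum_subset (Finset.subset_univ W)]
      · exact Finset.sum_congr rfl fun s hs => by rw [hgW s hs]
      · intro s _ hs
        rw [hgo s hs]
        ring
    have h3 : DC_tot g = Ef W f := by
      rw [HQ.DC_tot_eq W g hgo]
      unfold E Ef
      refine congrArg _ (Finset.sum_congr rfl fun s hs => Finset.sum_congr rfl fun i _ => ?_)
      rw [hgW s hs]
      by_cases h4 : s.erase i ∈ W
      · rw [if_pos h4, hgW _ h4]
      · rw [if_neg h4, hgo _ h4, mul_zero]
    rw [h1, h2, h3] at hR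
    refine hR.trans (mul_le_mul_of_nonneg_right ?_ ?_)
    · have := Pool.Agent.helper65.HC.le_lam ht.1
      rwa [hUc] at this
    · unfold N
      exact Finset.sum_nonneg fun x _ => sq_nonneg _

end Pool.Agent.helper9.HX
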