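import Pool.Agent.helper9.HX.Main

/-!
The explicit form of the value.
-/

set_option autoImplicit false

namespace Pool.Agent.helper9.HX

open Pool.Agent.helper65.HC (V IsEig IsTop lam)

theorem XP_le (m a b : ℝ) (h : (2 * a - m) ^ 2 + 16 * (m - 1 - a) ≤ (2 * b - m) ^ 2 + 16 * (m - 1 - b)) :
    F m a ≤ F m b := by
  unfold F
  have := Real.sqrt_le_sqrt h
  linarith

theorem XP_one (d m : ℕ) (h10 : 10 ≤ m) (h : m ≤ d + 1) : Xs d m = (m : ℝ) - 1 := by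
  have hmin : min d (m - 1) = m - 1 := by omega
  have hm : (10 : ℝ) ≤ m := by exact_mod_cast h10
  have h1 : F m ((m - 1 : ℕ) : ℝ) = (m : ℝ) - 1 := by
    unfold F
    rw [Nat.cast_sub (by omega : 1 ≤ m)]
    have h2 : (2 * ((m : ℝ) - (1 : ℕ)) - m) ^ 2 + 16 * ((m : ℝ) - 1 - ((m : ℝ) - (1 : ℕ))) = ((m : ℝ) - 2) ^ 2 := by
      push_cast
      ring
    rw [h2, Real.sqrt_sq (by linarith)]
    ring
  unfold Xs
  rw [hmin, max_eq_left, h1]
  apply XP_le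
  rw [Nat.cast_sub (by omega : 1 ≤ m)]
  push_cast
  rcases Nat.even_or_odd' m with ⟨k, hk | hk⟩
  · have h2 : (m + 1) / 2 = k := by omega
    rw [h2]
    have h3 : (m : ℝ) = 2 * k := by rw [hk]; push_cast; ring
    rw [h3] at hm ⊢
    nlinarith
  · have h2 : (m + 1) / 2 = k + 1 := by omega
    rw [h2]
    have h3 : (m : ℝ) = 2 * k + 1 := by rw [hk]; push_cast; ring
    rw [h3] at hm ⊢
    push_cast
    nlinarith

theorem XP_two (d m : ℕ) (h1 : d + 1 ≤ m) (h : m + 7 ≤ 2 * d) :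
    Xs d m = ((m : ℝ) + √((2 * d - m) ^ 2 + 16 * (m - 1 - d))) / 2 := by
  have hmin : min d (m - 1) = d := by omega
  unfold Xs
  rw [hmin, max_eq_left]
  · rfl
  apply XP_le
  rcases Nat.even_or_odd' m with ⟨k, hk | hk⟩
  · have h2 : (m + 1) / 2 = k := by omega
    rw [h2]
    have h3 : (m : ℝ) = 2 * k := by rw [hk]; push_cast; ring
    have h4 : k + 4 ≤ d := by omega
    have h5 : (k : ℝ) + 4 ≤ d := by exact_mod_cast h4
    have hk0 : (0 : ℝ) ≤ k := Nat.cast_nonneg k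
    rw [h3]
    nlinarith
  · have h2 : (m + 1) / 2 = k + 1 := by omega
    rw [h2]
    have h3 : (m : ℝ) = 2 * k + 1 := by rw [hk]; push_cast; ring
    have h4 : k + 4 ≤ d := by omega
    have h5 : (k : ℝ) + 4 ≤ d := by exact_mod_cast h4
    have hk0 : (0 : ℝ) ≤ k := Nat.cast_nonneg k
    rw [h3]
    push_cast
    nlinarith

theorem XP_even (d m : ℕ) (h10 : 10 ≤ m) (hd : m ≤ 2 * d) (h : 2 * d ≤ m + 8) (he : Even m) :
    Xs d m = (m : ℝ) / 2 + √(2 * m - 4) := by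
  have hmin : min d (m - 1) = d := by omega
  obtain ⟨k, hk⟩ := he
  have h2 : (m + 1) / 2 = k := by omega
  have h3 : (m : ℝ) = 2 * k := by rw [hk]; push_cast; ring
  have h4 : k ≤ d := by omega
  have h5 : (k : ℝ) ≤ d := by exact_mod_cast h4
  have h6 : d ≤ k + 4 := by omega
  have h7 : (d : ℝ) ≤ k + 4 := by exact_mod_cast h6
  unfold Xs
  rw [hmin, h2, max_eq_right]
  · unfold F
    rw [h3]
    have h8 : (2 * (k : ℝ) - 2 * k) ^ 2 + 16 * (2 * k - 1 - k) = 2 ^ 2 * (2 * (2 * k) - 4) := by ring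
    rw [h8, Real.sqrt_mul (by norm_num), Real.sqrt_sq (by norm_num)]
    ring
  · apply XP_le
    rw [h3]
    nlinarith

theorem XP_odd (d m : ℕ) (h10 : 10 ≤ m) (hd : m ≤ 2 * d) (h : 2 * d ≤ m + 8) (ho : Odd m) :
    Xs d m = ((m : ℝ) + √(8 * m - 23)) / 2 := by
  have hmin : min d (m - 1) = d := by omega
  obtain ⟨k, hk⟩ := ho
  have h2 : (m + 1) / 2 = k + 1 := by omega
  have h3 : (m : ℝ) = 2 * k + 1 := by rw [hk]; push_cast; ring
  have h4 : k + 1 ≤ d := by omega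
  have h5 : (k : ℝ) + 1 ≤ d := by exact_mod_cast h4
  have h6 : d ≤ k + 4 := by omega
  have h7 : (d : ℝ) ≤ k + 4 := by exact_mod_cast h6
  unfold Xs
  rw [hmin, h2, max_eq_right]
  · unfold F
    rw [h3]
    have h8 : (2 * ((k + 1 : ℕ) : ℝ) - (2 * k + 1)) ^ 2 + 16 * (2 * k + 1 - 1 - ((k + 1 : ℕ) : ℝ)) =
        8 * (2 * k + 1) - 23 := by
      push_cast
      ring
    rw [h8]
  · apply XP_le
    rw [h3]
    push_cast
    nlinarith

theorem explicit : ∃ m₀ : ℕ, ∀ d m : ℕ, m₀ ≤ m → m ≤ 2 * d →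
    IsGreatest {t | ∃ U : Finset (V d), U.card = m ∧ IsTop U t} (lam d m) ∧ 0 ≤ lam d m ∧
    (m ≤ d + 1 → lam d m ^ 2 = (m : ℝ) - 1) ∧
    (d + 1 ≤ m → m + 7 ≤ 2 * d →
      lam d m ^ 2 = ((m : ℝ) + √((2 * d - m) ^ 2 + 16 * (m - 1 - d))) / 2) ∧
    (2 * d ≤ m + 8 → Even m → lam d m ^ 2 = (m : ℝ) / 2 + √(2 * m - 4)) ∧
    (2 * d ≤ m + 8 → Odd m → lam d m ^ 2 = ((m : ℝ) + √(8 * m - 23)) / 2) := by
  obtain ⟨m₀, h⟩ := main
  refine ⟨max m₀ 10, ?_⟩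
  intro d m hm hmd
  have h10 : 10 ≤ m := (le_max_right _ _).trans hm
  obtain ⟨h0, hX, hG⟩ := h d m ((le_max_left _ _).trans hm) hmd
  refine ⟨hG, h0, ?_, ?_, ?_, ?_⟩
  · intro h1
    rw [hX, XP_one d m h10 h1]
  · intro h1 h2
    rw [hX, XP_two d m h1 h2]
  · intro h1 h2
    rw [hX, XP_even d m h10 hmd h1 h2]
  · intro h1 h2
    rw [hX, XP_odd d m h10 hmd h1 h2]

end Pool.Agent.helper9.HX
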