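import Pool.Agent.helper9.HX.Spec

set_option autoImplicit false

open scoped Classical

namespace Pool.Agent.helper9.HX

open Finset
open Pool.Agent.helper65.HC (V IsEig IsTop lam)
open Pool.Agent.helper9.HQ (Fam Dn E N Le hi c)

/-- step 1 -/
theorem CAN_p (K M n b t X H s v r : ℝ) (hK : 0 < K) (hr : 16 * K + 100 ≤ r) (hM : M = r ^ 2) (hn : b + 1 ≤ n)
    (hb : 0 ≤ b) (ht : 0 ≤ t) (hMe : M = 1 + n + b + t) (hs : 0 ≤ s) (hv : 0 ≤ v) (hH : 0 ≤ H)
    (hX : X = n + 2 * s) (hsv : s ^ 2 ≤ b * v)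
    (hmain : X * (1 + v) ≤ n + 4 * s + s ^ 2 + v + X * H)
    (hXH : X * H * M ^ 2 ≤ K * (2 * s + 2) ^ 2 * t) : 2 * s ≤ 3 * r := by
  by_contra hcon
  push Not at hcon
  have hr0 : 0 < r := by linarith
  have hM0 : 0 < M := by rw [hM]; positivity
  have h1 : (X - 1) * v ≤ 2 * s + s ^ 2 + X * H := by
    have : X * (1 + v) = X + X * v := by ring
    rw [this] at hmain
    linarith [hmain, hX]
  have hX1 : 0 ≤ X - 1 := by linarith
  have h2 : (X - 1) * s ^ 2 ≤ b * (2 * s + s ^ 2 + X * H) := by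
    calc (X - 1) * s ^ 2 ≤ (X - 1) * (b * v) := mul_le_mul_of_nonneg_left hsv hX1
      _ = b * ((X - 1) * v) := by ring
      _ ≤ b * (2 * s + s ^ 2 + X * H) := mul_le_mul_of_nonneg_left h1 hb
  have h3 : 2 * s * s ^ 2 ≤ b * (2 * s + X * H) := by
    have : 2 * s * s ^ 2 ≤ (X - 1 - b) * s ^ 2 := by
      apply mul_le_mul_of_nonneg_right _ (sq_nonneg s)
      linarith
    nlinarith
  have hXH0 : 0 ≤ X * H := mul_nonneg (by linarith) hH
  have h4 : 4 * s ^ 3 ≤ M * (2 * s) + M * (X * H) := by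
    have h5 : b * (2 * s + X * H) ≤ M / 2 * (2 * s + X * H) := by
      apply mul_le_mul_of_nonneg_right _ (by positivity)
      linarith
    nlinarith
  have h5 : M * (X * H) ≤ K * (2 * s + 2) ^ 2 := by
    have h6 : K * (2 * s + 2) ^ 2 * t ≤ K * (2 * s + 2) ^ 2 * M := by
      apply mul_le_mul_of_nonneg_left _ (by positivity)
      linarith
    have h7 : (M * (X * H)) * M ≤ (K * (2 * s + 2) ^ 2) * M := by nlinarith
    exact le_of_mul_le_mul_right h7 hM0
  have hs1 : 1 ≤ s := by linarith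
  have h6 : (2 * s + 2) ^ 2 ≤ 16 * s ^ 2 := by nlinarith
  have h7 : 4 * s ^ 3 ≤ M * (2 * s) + K * (16 * s ^ 2) := by
    have := mul_le_mul_of_nonneg_left h6 hK.le
    linarith
  have h8 : 4 * s ^ 2 ≤ 2 * M + 16 * K * s := by
    have h9 : (4 * s ^ 2) * s ≤ (2 * M + 16 * K * s) * s := by nlinarith
    exact le_of_mul_le_mul_right h9 (by linarith)
  have h9 : 16 * K * s ≤ 2 * s ^ 2 := by nlinarith
  have h10 : 9 * r ^ 2 < (2 * s) ^ 2 := by nlinarith
  nlinarith

/-- step 2 -/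
theorem CAN_D (K M n b t X H s v r g : ℝ) (hK : 0 < K) (hr : 16 * K + 100 ≤ r) (hM : M = r ^ 2)
    (ht : 0 ≤ t) (htM : t ≤ M) (hs : 0 ≤ s) (hv : 0 ≤ v)
    (hX : X = n + 2 * s) (hgn : n ≤ g)
    (hmain : X * (1 + v) ≤ g * (1 + v) + X * H)
    (hXH : X * H * M ^ 2 ≤ K * (2 * s + 2) ^ 2 * t) (hp : 2 * s ≤ 3 * r) :
    X ≤ g + t * (g - n + 4) / (2 * M) := by
  have hr0 : 0 < r := by linarith
  have hM0 : 0 < M := by rw [hM]; positivity
  rcases le_or_gt X g with h | h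
  · have : 0 ≤ t * (g - n + 4) / (2 * M) := by
      apply div_nonneg (mul_nonneg ht (by linarith)) (by positivity)
    linarith
  · have h1 : X - g ≤ X * H := by nlinarith
    have h2 : (X - g) * M ^ 2 ≤ K * (2 * s + 2) ^ 2 * t :=
      (mul_le_mul_of_nonneg_right h1 (by positivity)).trans hXH
    have h3 : (2 * s + 2) ^ 2 ≤ 4 * r * (2 * s + 2) := by nlinarith
    have h4 : K * (2 * s + 2) ^ 2 * t ≤ K * (4 * r * (2 * s + 2)) * t :=
      mul_le_mul_of_nonneg_right (mul_le_mul_of_nonneg_left h3 hK.le) ht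
    have h5 : (X - g) * M * r ≤ 4 * K * (2 * s + 2) * t := by
      have h6 : ((X - g) * M * r) * r ≤ (4 * K * (2 * s + 2) * t) * r := by
        have : ((X - g) * M * r) * r = (X - g) * M ^ 2 := by rw [hM]; ring
        rw [this]
        calc (X - g) * M ^ 2 ≤ K * (4 * r * (2 * s + 2)) * t := h2.trans h4
          _ = (4 * K * (2 * s + 2) * t) * r := by ring
      exact le_of_mul_le_mul_right h6 hr0
    have hDM : 0 ≤ (X - g) * M := mul_nonneg (by linarith) hM0.le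
    have h6 : (X - g) * M * (16 * K) ≤ 4 * K * (2 * s + 2) * t := by
      refine le_trans (mul_le_mul_of_nonneg_left ?_ hDM) h5
      linarith
    have h7 : 4 * ((X - g) * M) ≤ (2 * s + 2) * t := by
      have h8 : (4 * ((X - g) * M)) * (4 * K) ≤ ((2 * s + 2) * t) * (4 * K) := by nlinarith
      exact le_of_mul_le_mul_right h8 (by positivity)
    have h8 : 2 * s = (g - n) + (X - g) := by linarith
    rw [h8] at h7
    have h9 : (X - g) * t ≤ (X - g) * M := mul_le_mul_of_nonneg_left htM (by linarith)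
    have h10 : 3 * ((X - g) * M) ≤ (g - n + 2) * t := by nlinarith
    have h11 : 2 * ((X - g) * M) ≤ (g - n + 4) * t := by nlinarith [mul_nonneg (sub_nonneg.2 hgn) ht]
    have h12 : X - g ≤ t * (g - n + 4) / (2 * M) := by
      rw [le_div_iff₀ (by positivity)]
      nlinarith
    linarith

theorem CAN_q (x M : ℝ) (hx : x ^ 2 ≤ 2 * M) (hM : 10000 ≤ M) : x + 4 ≤ M := by
  by_contra hcon
  push Not at hcon
  have h2 : (M - 4) ^ 2 ≤ x ^ 2 := pow_le_pow_left₀ (by linarith) (by linarith) 2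
  have h3 : 0 ≤ M * (M - 10000) := mul_nonneg (by linarith) (by linarith)
  nlinarith

theorem CAN_n (r M n X s : ℝ) (hr : 100 ≤ r) (hM : M = r ^ 2) (hXh : M / 2 ≤ X) (hX : X = n + 2 * s)
    (hp : 2 * s ≤ 3 * r) : 4 ≤ n := by
  have h1 : 0 ≤ r * (r - 100) := mul_nonneg (by linarith) (by linarith)
  have h2 : n = X - 2 * s := by linarith
  rw [h2]
  nlinarith

theorem CAN (hN1 : N1_stmt) (hN2 : N2_stmt) (hN3 : N3_stmt) (hN4 : N4_stmt) (hN5 : N5_stmt) : CAN_stmt := by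
  intro C hC
  set K : ℝ := 2 * C ^ 3 with hK
  have hK0 : 0 < K := by rw [hK]; positivity
  refine ⟨⌈(16 * K + 100) ^ 2⌉₊, ?_⟩
  intro m ν e T d X H s v φ hm hmm heν hνd hs hv hH hφ hX hsv hX2 hXh hmain hmH hmφ
  set M : ℝ := (m : ℝ) with hMdef
  set n : ℝ := (ν : ℝ) with hndef
  set b : ℝ := (e : ℝ) with hbdef
  set t : ℝ := (T : ℝ) with htdef
  have hMK : (16 * K + 100) ^ 2 ≤ M := (Nat.le_ceil _).trans (by rw [hMdef]; exact_mod_cast hm)
  have hM1 : M = 1 + n + b + t := by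
    rw [hMdef, hmm]
    push_cast
    ring
  have hb0 : 0 ≤ b := Nat.cast_nonneg e
  have ht0 : 0 ≤ t := Nat.cast_nonneg T
  have hn0 : 0 ≤ n := Nat.cast_nonneg ν
  have hbn : b + 1 ≤ n := by rw [hbdef, hndef]; exact_mod_cast heν
  have hM0 : 0 < M := by linarith
  obtain ⟨r, hr0, hrM⟩ : ∃ r : ℝ, 0 ≤ r ∧ M = r ^ 2 := ⟨√M, Real.sqrt_nonneg _, (Real.sq_sqrt hM0.le).symm⟩
  have hrK : 16 * K + 100 ≤ r := by
    have : (16 * K + 100) ^ 2 ≤ r ^ 2 := by rw [← hrM]; exact hMK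
    exact le_of_sq_le_sq this hr0
  have hXH : X * H * M ^ 2 ≤ K * (2 * s + 2) ^ 2 * t := by
    have h1 : X * H ≤ 2 * M * H := mul_le_mul_of_nonneg_right hX2 hH
    have h2 : X * H ≤ 2 * C * φ ^ 2 * t := by
      have h3 : 2 * (M * H) ≤ 2 * (C * φ ^ 2 * t) := mul_le_mul_of_nonneg_left hmH (by norm_num)
      linarith
    have h3 : (M * φ) ^ 2 ≤ (C * (2 * s + 2)) ^ 2 := pow_le_pow_left₀ (mul_nonneg hM0.le hφ) hmφ 2
    calc X * H * M ^ 2 ≤ (2 * C * φ ^ 2 * t) * M ^ 2 := mul_le_mul_of_nonneg_right h2 (by positivity)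
      _ = (2 * C * t) * (M * φ) ^ 2 := by ring
      _ ≤ (2 * C * t) * (C * (2 * s + 2)) ^ 2 := mul_le_mul_of_nonneg_left h3 (by positivity)
      _ = K * (2 * s + 2) ^ 2 * t := by rw [hK]; ring
  have hp := CAN_p K M n b t X H s v r hK0 hrK hrM hbn hb0 ht0 hM1 hs hv hH hX hsv hmain hXH
  obtain ⟨hG, hGn, hGb, -, -, hGs⟩ := hN1 n b hb0
  have hGs' := hGs s v hs hv hsv
  set g : ℝ := G n b with hg
  have hmain2 : X * (1 + v) ≤ g * (1 + v) + X * H := by linarith
  have hD := CAN_D K M n b t X H s v r g hK0 hrK hrM ht0 (by linarith) hs hv hX hGn hmain2 hXH hp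
  have hr100 : 100 ≤ r := by linarith
  have hn4 : 4 ≤ n := CAN_n r M n X s hr100 hrM hXh hX hp
  have hp0 : (g - n) ^ 2 ≤ 2 * M := by
    have h1 : (g - n) * (g - n) ≤ (g - n) * (g - b - 1) :=
      mul_le_mul_of_nonneg_left (by linarith) (by linarith)
    rw [sq]
    linarith
  have hM10 : 10000 ≤ M := by
    have h1 : (100 : ℝ) ^ 2 ≤ r ^ 2 := pow_le_pow_left₀ (by norm_num) hr100 2
    rw [hrM]
    linarith
  have hp1 : g - n + 4 ≤ M := CAN_q (g - n) M hp0 hM10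
  unfold Xs
  by_cases hcase : e + T + 1 ≤ ν
  · have h1 := hN2 n b t M hn4 hb0 ht0 (by linarith)
    rw [← hg] at h1
    have h2 : F M n = G n (b + t) := by
      rw [(hN3.2 M n).1]
      congr 1
      linarith
    have h3 := hN3.1 M (((m + 1) / 2 : ℕ) : ℝ) ((min d (m - 1) : ℕ) : ℝ) n
      (by rw [hndef]; exact_mod_cast (by omega : (m + 1) / 2 ≤ ν))
      (by rw [hndef]; exact_mod_cast (by omega : ν ≤ min d (m - 1)))
    rw [h2] at h3
    linarith
  · have hlt : 2 * ν + 1 ≤ m := by omega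
    have hltR : 2 * n + 1 ≤ M := by rw [hMdef, hndef]; exact_mod_cast hlt
    have h1 := hN2 n b (n - 1 - b) M hn4 hb0 (by linarith) (by linarith)
    rw [← hg] at h1
    have h2 := hN5 n 0 (by linarith) (le_refl 0) (by linarith)
    have h3 : min ((0 : ℝ) / 4) (√(n - 1)) = 0 := by
      rw [zero_div]
      exact min_eq_left (Real.sqrt_nonneg _)
    rw [h3] at h2
    have h4 : G n (b + (n - 1 - b)) = G n (n - 1 - 0) := by
      congr 1
      ring
    rw [h4] at h1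
    have h5 := hN4 m ν (by omega) hlt
    rw [← hMdef, ← hndef] at h5
    have h6 : t * (g - n + 4) / (2 * M) = (n - 1 - b) * (g - n + 4) / (2 * M) +
        (M - 2 * n) * (g - n + 4) / (2 * M) := by
      rw [← add_div]
      congr 1
      have : t = (n - 1 - b) + (M - 2 * n) := by linarith
      rw [this]
      ring
    have h7 : (M - 2 * n) * (g - n + 4) / (2 * M) ≤ (M - 2 * n) / 2 := by
      rw [div_le_div_iff₀ (by positivity) (by norm_num)]
      have : 0 ≤ M - 2 * n := by linarith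
      nlinarith [mul_le_mul_of_nonneg_left hp1 this]
    have h8 : F M (((m + 1) / 2 : ℕ) : ℝ) ≤ max (F M ((min d (m - 1) : ℕ) : ℝ)) (F M (((m + 1) / 2 : ℕ) : ℝ)) :=
      le_max_right _ _
    linarith

end Pool.Agent.helper9.HX
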