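import Pool.Agent.helper9.HX.Spec

set_option autoImplicit false

open scoped Classical

namespace Pool.Agent.helper9.HX

open Finset
open Pool.Agent.helper65.HC (V IsEig IsTop lam)
open Pool.Agent.helper9.HQ (Fam Dn E N Le hi c)

theorem EMB_map {d D : ℕ} (S : Finset (Fin d)) (h : S.card ≤ D) (hD : 0 < D) :
    ∃ τ : Fin d → Fin D, Set.InjOn τ S := by
  have h1 : Fintype.card S ≤ Fintype.card (Fin D) := by
    rw [Fintype.card_coe, Fintype.card_fin]
    exact h
  obtain ⟨e⟩ := Function.Embedding.nonempty_of_card_le h1
  refine ⟨fun i => if h : i ∈ S then e ⟨i, h⟩ else ⟨0, hD⟩, ?_⟩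
  intro i hi j hj hij
  have hi' : i ∈ S := hi
  have hj' : j ∈ S := hj
  have h2 : (if h : i ∈ S then e ⟨i, h⟩ else ⟨0, hD⟩) = (if h : j ∈ S then e ⟨j, h⟩ else ⟨0, hD⟩) := hij
  rw [dif_pos hi', dif_pos hj'] at h2
  have h3 := e.injective h2
  exact congrArg Subtype.val h3

theorem EMB (hTRN : TRN_stmt) : EMB_stmt := by
  intro d D m W S f hWS hSD hWm hmD
  rcases Nat.eq_zero_or_pos D with hD | hD
  · subst hD
    have hS : S = ∅ := Finset.card_eq_zero.1 (by omega)
    subst hS
    have hW : W ⊆ {∅} := by
      intro x hx
      rw [Finset.mem_singleton]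
      exact Finset.subset_empty.1 (hWS x hx)
    rcases Finset.subset_singleton_iff.1 hW with h1 | h1
    · subst h1
      unfold Ef N
      simp
    · subst h1
      have h2 := hTRN 0 m {∅} (fun _ => f ∅) (by simpa using hWm) hmD
      unfold Ef N at h2 ⊢
      simpa using h2
  · obtain ⟨τ, hτ⟩ := EMB_map S hSD hD
    have hΨ : ∀ x, x ⊆ S → S.filter (fun i => τ i ∈ x.image τ) = x := by
      intro x hx
      ext i
      rw [Finset.mem_filter, Finset.mem_image]
      constructor
      · rintro ⟨hi, j, hj, hji⟩
        have : j = i := hτ (hx hj) hi hji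
        rw [← this]
        exact hj
      · intro hi
        exact ⟨hx hi, i, hi, rfl⟩
    have hinj : ∀ x y, x ⊆ S → y ⊆ S → x.image τ = y.image τ → x = y := by
      intro x y hx hy hxy
      rw [← hΨ x hx, ← hΨ y hy, hxy]
    have hInjOn : Set.InjOn (fun x : Finset (Fin d) => x.image τ) (W : Set (Finset (Fin d))) := by
      intro x hx y hy hxy
      exact hinj x y (hWS x hx) (hWS y hy) hxy
    have h1 := hTRN D m (W.image fun x => x.image τ) (fun y => f (S.filter fun i => τ i ∈ y))
      (Finset.card_image_le.trans hWm) hmD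
    have hN : N (W.image fun x => x.image τ) (fun y => f (S.filter fun i => τ i ∈ y)) = N W f := by
      unfold N
      rw [Finset.sum_image hInjOn]
      refine Finset.sum_congr rfl fun x hx => ?_
      show f (S.filter fun i => τ i ∈ x.image τ) ^ 2 = f x ^ 2
      rw [hΨ x (hWS x hx)]
    have hE : Ef (W.image fun x => x.image τ) (fun y => f (S.filter fun i => τ i ∈ y)) = Ef W f := by
      unfold Ef
      rw [Finset.sum_image hInjOn]
      refine congrArg _ (Finset.sum_congr rfl fun x hx => ?_)
      have hxS := hWS x hx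
      have hx2 : Set.InjOn τ (x : Set (Fin d)) := hτ.mono (by exact_mod_cast hxS)
      rw [Finset.sum_image hx2]
      refine Finset.sum_congr rfl fun i hi => ?_
      have he : (x.image τ).erase (τ i) = (x.erase i).image τ := by
        ext j
        rw [Finset.mem_erase, Finset.mem_image, Finset.mem_image]
        constructor
        · rintro ⟨hj, k, hk, hkj⟩
          refine ⟨k, Finset.mem_erase.2 ⟨?_, hk⟩, hkj⟩
          intro h
          rw [h] at hkj
          exact hj hkj.symm
        · rintro ⟨k, hk, hkj⟩
          rw [Finset.mem_erase] at hk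
          refine ⟨?_, k, hk.2, hkj⟩
          intro h
          rw [← hkj] at h
          exact hk.1 (hx2 hk.2 hi h)
      have hxe : x.erase i ⊆ S := (Finset.erase_subset i x).trans hxS
      have hmem : (x.erase i).image τ ∈ (W.image fun x => x.image τ) ↔ x.erase i ∈ W := by
        constructor
        · intro h
          obtain ⟨z, hz, hzx⟩ := Finset.mem_image.1 h
          have := hinj z (x.erase i) (hWS z hz) hxe hzx
          rw [← this]
          exact hz
        · intro h
          exact Finset.mem_image.2 ⟨_, h, rfl⟩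
      rw [he]
      show (if (x.erase i).image τ ∈ (W.image fun x => x.image τ) then
        f (S.filter fun i => τ i ∈ x.image τ) * f (S.filter fun j => τ j ∈ (x.erase i).image τ) else 0) = _
      rw [hΨ x hxS, hΨ _ hxe]
      by_cases h : x.erase i ∈ W
      · rw [if_pos h, if_pos (hmem.2 h)]
      · rw [if_neg h, if_neg fun h2 => h (hmem.1 h2)]
    rw [hN, hE] at h1
    exact h1

end Pool.Agent.helper9.HX
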