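import Pool.Agent.helper9.HX.Spec
import Pool.Agent.helper9.HQ.DC
import Pool.Agent.helper32.HQ.EV

set_option autoImplicit false

open scoped Classical

namespace Pool.Agent.helper9.HX

open Finset
open Pool.Agent.helper65.HC (V IsEig IsTop lam)
open Pool.Agent.helper9.HQ (Fam Dn E N Le hi c DC_fl DC_cp DC_tot)

theorem MON_Nsum {d : ℕ} (U : Fam d) (g : Finset (Fin d) → ℝ) (h : ∀ x, x ∉ U → g x = 0) :
    N U g = ∑ s, g s ^ 2 := by
  unfold N
  refine Finset.sum_subset (Finset.subset_univ U) fun x _ hx => ?_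
  rw [h x hx]
  ring

theorem MON_supp {d : ℕ} (i : Fin d) (U : Fam d) (hU : Dn U) (g : Finset (Fin d) → ℝ)
    (hg0 : ∀ s, 0 ≤ g s) (hg : ∀ s, s ∉ U → g s = 0) (s : Finset (Fin d)) (hs : s ∉ U) :
    DC_cp i g s = 0 := by
  by_cases h : i ∈ s
  · rw [HQ.DC_cp_mem i g s h, hg s hs]
    exact min_eq_left (hg0 _)
  · have h2 : insert i s ∉ U := fun h3 => hs (hU _ h3 _ (Finset.subset_insert i s))
    rw [HQ.DC_cp_not i g s h, HQ.DC_fl_not i s h, hg s hs, hg _ h2, max_self]

/-- the potential decreases under sorting -/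
theorem MON_pot {d : ℕ} (i : Fin d) (g : Finset (Fin d) → ℝ)
    (hle : ∑ s, (s.card : ℝ) * g s ≤ ∑ s, (s.card : ℝ) * DC_cp i g s) (s : Finset (Fin d)) :
    DC_cp i g s = g s := by
  have h1 : ∑ s, (s.card : ℝ) * (g s - DC_cp i g s) =
      ∑ s, ((DC_fl i s).card : ℝ) * (g (DC_fl i s) - DC_cp i g (DC_fl i s)) :=
    (HQ.DC_sum_fl i (fun s => (s.card : ℝ) * (g s - DC_cp i g s))).symm
  have h2 : ∀ s, (s.card : ℝ) * (g s - DC_cp i g s) +
      ((DC_fl i s).card : ℝ) * (g (DC_fl i s) - DC_cp i g (DC_fl i s)) = |g s - DC_cp i g s| := by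
    intro s
    by_cases h : i ∈ s
    · rw [HQ.DC_cp_mem i g s h, HQ.DC_cp_fl_mem i g s h, HQ.DC_fl_mem i s h,
        Finset.card_erase_of_mem h]
      have h3 : 1 ≤ s.card := Finset.card_pos.2 ⟨i, h⟩
      rw [Nat.cast_sub h3]
      rcases le_total (g s) (g (s.erase i)) with h4 | h4
      · rw [min_eq_left h4, max_eq_right h4, sub_self, abs_zero]
        ring
      · rw [min_eq_right h4, max_eq_left h4, abs_of_nonneg (sub_nonneg.2 h4)]
        push_cast
        ring
    · rw [HQ.DC_cp_not i g s h, HQ.DC_cp_fl_not i g s h, HQ.DC_fl_not i s h,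
        Finset.card_insert_of_notMem h]
      rcases le_total (g s) (g (insert i s)) with h4 | h4
      · rw [max_eq_right h4, min_eq_left h4, abs_of_nonpos (sub_nonpos.2 h4)]
        push_cast
        ring
      · rw [max_eq_left h4, min_eq_right h4, sub_self, abs_zero]
        ring
  have h3 : ∑ s, |g s - DC_cp i g s| ≤ 0 := by
    rw [← Finset.sum_congr rfl fun s _ => h2 s, Finset.sum_add_distrib, ← h1]
    have h4 : ∑ s, (s.card : ℝ) * (g s - DC_cp i g s) =
        ∑ s, (s.card : ℝ) * g s - ∑ s, (s.card : ℝ) * DC_cp i g s := by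
      rw [← Finset.sum_sub_distrib]
      exact Finset.sum_congr rfl fun s _ => by ring
    rw [h4]
    linarith
  have h4 : ∑ s, |g s - DC_cp i g s| = 0 := le_antisymm h3 (Finset.sum_nonneg fun s _ => abs_nonneg _)
  have h5 := (Finset.sum_eq_zero_iff_of_nonneg (fun s _ => abs_nonneg (g s - DC_cp i g s))).1 h4 s
    (Finset.mem_univ s)
  have h6 := abs_eq_zero.1 h5
  linarith

theorem MON_mono {d : ℕ} (f : Finset (Fin d) → ℝ) (h : ∀ x i, i ∈ x → f x ≤ f (x.erase i)) :
    ∀ x y, y ⊆ x → f x ≤ f y := by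
  have key : ∀ (n : ℕ) (x y : Finset (Fin d)), y ⊆ x → (x \ y).card = n → f x ≤ f y := by
    intro n
    induction n with
    | zero =>
      intro x y hyx hc
      have h1 : x \ y = ∅ := Finset.card_eq_zero.1 hc
      have h2 : x ⊆ y := Finset.sdiff_eq_empty_iff_subset.1 h1
      rw [Finset.Subset.antisymm h2 hyx]
    | succ n ih =>
      intro x y hyx hc
      have h1 : (x \ y).Nonempty := by
        rw [← Finset.card_pos, hc]
        omega
      obtain ⟨i, hi⟩ := h1
      rw [Finset.mem_sdiff] at hi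
      have h2 : y ⊆ x.erase i := fun j hj =>
        Finset.mem_erase.2 ⟨fun h3 => hi.2 (h3 ▸ hj), hyx hj⟩
      have h3 : (x.erase i \ y).card = n := by
        have h4 : x.erase i \ y = (x \ y).erase i := by
          ext j
          simp only [Finset.mem_sdiff, Finset.mem_erase]
          tauto
        rw [h4, Finset.card_erase_of_mem (Finset.mem_sdiff.2 hi), hc]
        rfl
      exact (h x i hi.1).trans (ih _ _ h2 h3)
  intro x y hyx
  exact key _ x y hyx rfl

theorem MON : MON_stmt := by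
  intro d U hU hne
  obtain ⟨l, f₀, h1, h2, hLe⟩ := HQ.EV_max hU hne
  let K : Set (Finset (Fin d) → ℝ) :=
    {g | (N U g = 1 ∧ ∀ x, x ∉ U → g x = 0) ∧ (∀ x, 0 ≤ g x) ∧ l ≤ E U g}
  have hNc : Continuous (fun f : Finset (Fin d) → ℝ => N U f) := by
    unfold N
    fun_prop
  have hEc : Continuous (fun f : Finset (Fin d) → ℝ => E U f) := by
    unfold E
    fun_prop
  have hPc : Continuous (fun f : Finset (Fin d) → ℝ => ∑ s, (s.card : ℝ) * f s) := by
    fun_prop
  have hKc : IsClosed K := by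
    have h1 : IsClosed {f : Finset (Fin d) → ℝ | N U f = 1} := isClosed_eq hNc continuous_const
    have h2 : IsClosed {f : Finset (Fin d) → ℝ | ∀ x, x ∉ U → f x = 0} := by
      rw [show {f : Finset (Fin d) → ℝ | ∀ x, x ∉ U → f x = 0} =
        ⋂ x : Finset (Fin d), ⋂ _ : x ∉ U, {f | f x = 0} by ext f; simp]
      exact isClosed_iInter fun x => isClosed_iInter fun _ =>
        isClosed_eq (continuous_apply x) continuous_const
    have h3 : IsClosed {f : Finset (Fin d) → ℝ | ∀ x, 0 ≤ f x} := by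
      rw [show {f : Finset (Fin d) → ℝ | ∀ x, 0 ≤ f x} =
        ⋂ x : Finset (Fin d), {f | 0 ≤ f x} by ext f; simp]
      exact isClosed_iInter fun x => isClosed_le continuous_const (continuous_apply x)
    have h4 : IsClosed {f : Finset (Fin d) → ℝ | l ≤ E U f} := isClosed_le continuous_const hEc
    exact (h1.inter h2).inter (h3.inter h4)
  have hKb : Bornology.IsBounded K := by
    refine (Metric.isBounded_closedBall (x := (0 : Finset (Fin d) → ℝ)) (r := 1)).subset ?_
    rintro f ⟨⟨hf1, hf2⟩, _⟩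
    rw [mem_closedBall_zero_iff, pi_norm_le_iff_of_nonneg (by norm_num)]
    intro x
    rw [Real.norm_eq_abs]
    by_cases hx : x ∈ U
    · have h1 : f x ^ 2 ≤ 1 := by
        rw [← hf1]
        unfold N
        exact Finset.single_le_sum (f := fun x => f x ^ 2) (fun i _ => sq_nonneg _) hx
      exact (sq_le_one_iff_abs_le_one (f x)).1 h1
    · rw [hf2 x hx, abs_zero]
      norm_num
  have hKcomp : IsCompact K := Metric.isCompact_of_isClosed_isBounded hKc hKb
  have hKne : K.Nonempty := by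
    have e1 : ∀ x ∈ U, (fun x => if x ∈ U then |f₀ x| else 0) x = (fun x => |f₀ x|) x :=
      fun x hx => if_pos hx
    refine ⟨fun x => if x ∈ U then |f₀ x| else 0, ⟨?_, ?_⟩, ?_, ?_⟩
    · rw [HQ.EV_N_congr e1, HQ.EV_N_abs, h1]
    · intro x hx
      exact if_neg hx
    · intro x
      show 0 ≤ (if x ∈ U then |f₀ x| else 0)
      split_ifs
      · exact abs_nonneg _
      · exact le_refl _
    · rw [HQ.EV_E_congr hU e1, ← h2]
      exact HQ.EV_E_abs U f₀
  obtain ⟨g, hgK, hmin⟩ := hKcomp.exists_isMinOn hKne hPc.continuousOn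
  obtain ⟨⟨hN, hout⟩, hnn, hE0⟩ := hgK
  have hE : E U g = l := by
    refine le_antisymm ?_ hE0
    have := hLe g
    rwa [hN, mul_one] at this
  have hcp : ∀ i s, DC_cp i g s = g s := by
    intro i s
    have hs := MON_supp i U hU g hnn hout
    have hmem : DC_cp i g ∈ K := by
      refine ⟨⟨?_, hs⟩, HQ.DC_cp_nonneg i g hnn, ?_⟩
      · rw [MON_Nsum U _ hs, HQ.DC_cp_sq, ← MON_Nsum U g hout, hN]
      · rw [← HQ.DC_tot_eq U _ hs]
        refine le_trans ?_ (HQ.DC_cp_tot i g)
        rw [HQ.DC_tot_eq U g hout, hE]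
    exact MON_pot i g (hmin hmem) s
  have hstep : ∀ x i, i ∈ x → g x ≤ g (x.erase i) := by
    intro x i hi
    have h3 := hcp i x
    rw [HQ.DC_cp_mem i g x hi, HQ.DC_fl_mem i x hi] at h3
    rw [← h3]
    exact min_le_right _ _
  have hmono := MON_mono g hstep
  have hem : ∅ ∈ U := by
    obtain ⟨x, hx⟩ := hne
    exact hU x hx _ (Finset.empty_subset x)
  have hpos : 0 < g ∅ := by
    rcases (hnn ∅).eq_or_lt with h3 | h3
    · exfalso
      have h4 : N U g = 0 := by
        unfold N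
        refine Finset.sum_eq_zero fun x _ => ?_
        have h5 := hmono x ∅ (Finset.empty_subset x)
        have h6 : g x = 0 := le_antisymm (by rw [h3]; exact h5) (hnn x)
        rw [h6]
        ring
      rw [h4] at hN
      exact zero_ne_one hN
    · exact h3
  have hl : 0 ≤ l := by
    rw [← hE]
    unfold E
    refine mul_nonneg (by norm_num) (Finset.sum_nonneg fun x _ => Finset.sum_nonneg fun i _ =>
      mul_nonneg (hnn _) (hnn _))
  have heq : ∀ x₀ ∈ U, l * g x₀ = ∑ i ∈ x₀, g (x₀.erase i) + ∑ i ∈ x₀ᶜ, g (insert i x₀) := by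
    intro x₀ hx₀
    have hs : ∑ i ∈ x₀ᶜ, g (insert i x₀) =
        ∑ i ∈ univ.filter (fun i => i ∉ x₀ ∧ insert i x₀ ∈ U), g (insert i x₀) := by
      symm
      refine Finset.sum_subset ?_ ?_
      · intro i hi
        rw [Finset.mem_compl]
        exact (Finset.mem_filter.1 hi).2.1
      · intro i hi hi2
        rw [Finset.mem_compl] at hi
        apply hout
        intro h3
        exact hi2 (Finset.mem_filter.2 ⟨Finset.mem_univ i, hi, h3⟩)
    rw [hs]
    set A : ℝ := ∑ i ∈ x₀, g (x₀.erase i) +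
        ∑ i ∈ univ.filter (fun i => i ∉ x₀ ∧ insert i x₀ ∈ U), g (insert i x₀) with hA
    have key : ∀ r : ℝ, 0 ≤ 2 * r * (l * g x₀ - A) + l * r ^ 2 := by
      intro r
      obtain ⟨e1, e2⟩ := HQ.EV_single hx₀ g r
      have e3 := hLe (fun x => g x + r * (if x = x₀ then 1 else 0))
      rw [e1, e2, hN, hE, ← hA] at e3
      nlinarith
    have hl1 : 0 < l + 1 := by linarith
    have h3 := key (-(l * g x₀ - A) / (l + 1))
    have h4 : 2 * (-(l * g x₀ - A) / (l + 1)) * (l * g x₀ - A) +
        l * (-(l * g x₀ - A) / (l + 1)) ^ 2 =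
        -((l * g x₀ - A) ^ 2 * ((l + 2) / (l + 1) ^ 2)) := by
      field_simp
      ring
    rw [h4] at h3
    have h5 : 0 < (l + 2) / (l + 1) ^ 2 := by positivity
    have h6 : (l * g x₀ - A) ^ 2 ≤ 0 := by
      by_contra hcon
      push Not at hcon
      have := mul_pos hcon h5
      linarith
    have h7 : l * g x₀ - A = 0 := by
      have := le_antisymm h6 (sq_nonneg _)
      exact pow_eq_zero_iff (two_ne_zero) |>.1 this
    linarith
  refine ⟨l, fun x => g x / g ∅, ⟨hU, hem, ?_, ?_, ?_, ?_, ?_, hLe⟩⟩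
  · intro x
    exact div_nonneg (hnn x) hpos.le
  · intro x hx
    show g x / g ∅ = 0
    rw [hout x hx, zero_div]
  · exact div_self hpos.ne'
  · intro x y hyx
    exact div_le_div_of_nonneg_right (hmono x y hyx) hpos.le
  · intro x hx
    show l * (g x / g ∅) = ∑ i ∈ x, g (x.erase i) / g ∅ + ∑ i ∈ xᶜ, g (insert i x) / g ∅
    rw [← Finset.sum_div, ← Finset.sum_div, ← add_div, ← heq x hx]
    ring

end Pool.Agent.helper9.HX
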