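import Pool.Agent.helper9.HQ.Spec

/-!
# Project hx (MP_d9e35a_co): the exact value of `λ_d(m)` for `m₀ ≤ m ≤ 2 d`

THEOREM. `F(m,n) = (m + √((2n-m)² + 16 (m-1-n)))/2`. There is `m₀` such that for `m₀ ≤ m ≤ 2d`
`λ_d(m)² = max (F(m, min(d, m-1))) (F(m, ⌈m/2⌉))`. (Optimal sets: `∅`, `n` singletons and `m-1-n` pairs `{1, j}`.)

Idea: after compression the set `U` is a down-set with a monotone Perron vector `f`, `f ∅ = 1`. `X = l²`, `ν` singletons, `e` pairs, `T` larger sets,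
`p = X - ν`. If `X ≥ m/2` the larger sets live on at most `3m/7` coordinates, so that their graph has top eigenvalue `≤ √(9m/20) < l` by the theorem
hq, and `f` is tiny there. The levels `≤ 2` are treated by hand: either `e < ν` (then a star of pairs is best) or `e ≥ ν`.

Rules: file `Pool/Agent/<seat>/HX/XX.lean`, `import Pool.Agent.helper9.HX.Spec`, `namespace Pool.Agent.helper9.HX`, `open Finset`,
`theorem XX (h : YY_stmt) ... : XX_stmt` (exact line in the lock note). Other rows only as hypotheses, nobody waits.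
Auxiliary lemmas prefixed `XX_`. No double quotes, no `convert`, no `congr!`. Paper: `/team-store/MP_d9e35a_exact_helper9.md`.
-/

set_option autoImplicit false
set_option linter.unusedVariables false

open scoped Classical

namespace Pool.Agent.helper9.HX

open Finset
open Pool.Agent.helper65.HC (V IsEig IsTop lam)
open Pool.Agent.helper9.HQ (Fam Dn E N Le hi c)

noncomputable section

/-! ## Definitions -/

/-- number of singletons -/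
def nu {d : ℕ} (U : Fam d) : ℕ := (U.filter fun x => x.card = 1).card

/-- number of pairs -/
def ee {d : ℕ} (U : Fam d) : ℕ := (U.filter fun x => x.card = 2).card

/-- number of pairs which contain `i` -/
def dg {d : ℕ} (i : Fin d) (U : Fam d) : ℕ := (U.filter fun x => x.card = 2 ∧ i ∈ x).card

/-- sum of `f` over the pairs -/
def s2 {d : ℕ} (U : Fam d) (f : Finset (Fin d) → ℝ) : ℝ := ∑ x ∈ U.filter (fun x => x.card = 2), f x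

/-- sum of `f ^ 2` over the pairs -/
def u2 {d : ℕ} (U : Fam d) (f : Finset (Fin d) → ℝ) : ℝ := ∑ x ∈ U.filter (fun x => x.card = 2), f x ^ 2

/-- sum of `f` over the pairs which contain `i` -/
def pd {d : ℕ} (i : Fin d) (U : Fam d) (f : Finset (Fin d) → ℝ) : ℝ :=
  ∑ x ∈ U.filter (fun x => x.card = 2 ∧ i ∈ x), f x

/-- number of the `k ∉ x` with `x ∪ k ∈ U` -/
def up {d : ℕ} (x : Finset (Fin d)) (U : Fam d) : ℕ := (univ.filter fun k => k ∉ x ∧ insert k x ∈ U).card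

/-- the 4-sets of `U` which contain `x` -/
def four {d : ℕ} (x : Finset (Fin d)) (U : Fam d) : Fam d := U.filter fun y => y.card = 4 ∧ x ⊆ y

/-- the 3-sets of `U` which contain `i` -/
def thr {d : ℕ} (i : Fin d) (U : Fam d) : Fam d := U.filter fun y => y.card = 3 ∧ i ∈ y

/-- the quadratic form of the subgraph induced on any family `W` -/
def Ef {d : ℕ} (W : Fam d) (f : Finset (Fin d) → ℝ) : ℝ :=
  2 * ∑ x ∈ W, ∑ i ∈ x, if x.erase i ∈ W then f x * f (x.erase i) else 0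

/-- `f` is a monotone Perron vector of the down-set `U` with `f ∅ = 1`, `l` is the largest eigenvalue -/
structure Pf {d : ℕ} (U : Fam d) (l : ℝ) (f : Finset (Fin d) → ℝ) : Prop where
  dn : Dn U
  em : ∅ ∈ U
  nn : ∀ x, 0 ≤ f x
  out : ∀ x, x ∉ U → f x = 0
  one : f ∅ = 1
  mono : ∀ x y, y ⊆ x → f x ≤ f y
  eq : ∀ x ∈ U, l * f x = ∑ i ∈ x, f (x.erase i) + ∑ i ∈ xᶜ, f (insert i x)
  le : Le U l

/-- the situation of the rows P2 HVA HVB CA CB: `U` has `m` members, `l² ≥ m/2`, and the graph of the levels `≥ 3` has small top eigenvalue -/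
structure St {d : ℕ} (m : ℕ) (U : Fam d) (l : ℝ) (f : Finset (Fin d) → ℝ) : Prop where
  pf : Pf U l f
  card : U.card = m
  half : (m : ℝ) / 2 ≤ l ^ 2
  form : Ef (hi U) f ≤ √(9 / 20 * m) * N (hi U) f

/-- the larger root of `(y - a)(y - b - 1) = 4 b` -/
def G (a b : ℝ) : ℝ := (a + b + 1 + √((a - 1 - b) ^ 2 + 16 * b)) / 2

/-- `F m n = G n (m - 1 - n)` -/
def F (m n : ℝ) : ℝ := (m + √((2 * n - m) ^ 2 + 16 * (m - 1 - n))) / 2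

/-- the value -/
def Xs (d m : ℕ) : ℝ := max (F m ((min d (m - 1) : ℕ) : ℝ)) (F m (((m + 1) / 2 : ℕ) : ℝ))

/-! ## Part 1: the graph rows -/

/-- MON (medium). A monotone Perron vector.
Proof. `g ≥ 0` supported on `U` with `N U g = 1`: a compact set `K` (functions on the finite type of all sets). Let `l` be the maximum of `E U` over all `g`
(or over `K`; `E U |g| ≥ E U g`, and values outside `U` do not matter since `U` is a down-set). So `Le U l`. Let `K' ⊆ K` be the compact non-empty set of the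
maximisers in `K` and choose `g ∈ K'` with `∑_x |x| g(x)` minimal. Claim: `g(x ∪ i) ≤ g(x)` for all `x ∌ i`. Put `g'(x) = max (g x) (g (x ∪ i))`, `g'(x ∪ i) = min (g x) (g (x ∪ i))` for
`x ∌ i`. It is supported on `U` (down-set), `N U g' = N U g`, `E U g' ≥ E U g` (direction `i`: `max * min` is the product; directions `j ≠ i`: the rearrangement inequality
`p r + q s ≤ max(p,q) max(r,s) + min(p,q) min(r,s)`, as in the row DC of hq, `Pool/Agent/helper9/HQ/DC.lean`), so `g' ∈ K'`, and `∑ |x| g'(x) < ∑ |x| g(x)` if the claim fails for some `x`.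
So `g` is monotone, `g(∅) > 0`; `f = g/g(∅)`. The eigen equation: for `x ∈ U` and the indicator `e` of `x` the function `r ↦ l N(g + r e) - E(g + r e)` is a polynomial of degree `≤ 2` in `r`,
`≥ 0`, zero at `r = 0`, so its linear coefficient vanishes (see `Pool/Agent/helper32/HQ/EV.lean`); the sum over `i ∈ xᶜ` may be extended to all `i ∉ x` since `f = 0` outside `U`. -/
def MON_stmt : Prop := ∀ (d : ℕ) (U : Fam d), Dn U → U.Nonempty → ∃ (l : ℝ) (f : Finset (Fin d) → ℝ), Pf U l f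

/-- UPP (short; uses the row DC of hq and MON). Proof. DC gives `A`, `f₀` with `t ≤ E A f₀`, `N A f₀ = 1` (so `A` is not empty); MON gives `l, f`; `E A f₀ ≤ l` by `Pf.le`. -/
def UPP_stmt : Prop := ∀ (d : ℕ) (U : Finset (V d)) (t : ℝ), IsEig U t →
  ∃ (A : Fam d) (l : ℝ) (f : Finset (Fin d) → ℝ), A.card = U.card ∧ Pf A l f ∧ t ≤ l

/-- TRN (short-medium). Proof. `m = 0`: `W = ∅`. Otherwise choose `W' ⊇ W` with `m` members (there are `2 ^ d` subsets), transport to `U : Finset (V d)` by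
`x ↦ (fun i => decide (i ∈ x))`, `U.card = m`; `Pool.Agent.helper65.HC.isTop_exists`, `Pool.Agent.helper65.HC.rayleigh` for the function `f` on `W` and 0 elsewhere: `Ef W f ≤ t N W f`
(each edge `{x, x.erase i}` of `W` occurs twice in `∑_x f x ∑_i f (flip i x)`), `t ≤ lam d m` by `Pool.Agent.helper65.HC.le_lam`, `N W f ≥ 0`. -/
def TRN_stmt : Prop := ∀ (d m : ℕ) (W : Fam d) (f : Finset (Fin d) → ℝ), W.card ≤ m → m ≤ 2 ^ d →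
  Ef W f ≤ lam d m * N W f

/-- EMB (short-medium; uses TRN). The members of `W` are subsets of `S`, `|S| ≤ D`.
Proof. There is a function `e : Fin d → Fin D` injective on `S` (if `S = ∅` and `D = 0`: then `W ⊆ {∅}`, `Ef W f = 0 `, `lam 0 m ≥ 0`... for `m = 1`: or apply TRN with `W'` and avoid `e` by
`x ↦ (univ.filter fun k => ∃ i ∈ x, e' i k)`). Use an equivalence of `S` with `Fin S.card` and `Fin.castLE`: `τ : S → Fin D` injective, `x ↦ image`: `W' = W.image fun x => univ.filter fun k => ∃ i : S, i.1 ∈ x ∧ τ i = k`,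
`f'(y) = f (S.filter fun i => τ i ∈ y)` (written with `attach`). The map is injective on subsets of `S`, commutes with `erase`; `Ef W' f' = Ef W f`, `N W' f' = N W f`, `W'.card = W.card`. -/
def EMB_stmt : Prop := ∀ (d D m : ℕ) (W : Fam d) (S : Finset (Fin d)) (f : Finset (Fin d) → ℝ), (∀ x ∈ W, x ⊆ S) →
  S.card ≤ D → W.card ≤ m → m ≤ 2 ^ D → Ef W f ≤ lam D m * N W f

/-- V3C (short-medium). Proof. `S` = union of the 3-sets of `U`; every larger set of `U` is the union of its 3-subsets, which are in `U`. `U` contains `∅`, the singletons `{i}`, `i ∈ S`;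
pairs: each `i ∈ S` is in at least 2 pairs of `U`, each pair has 2 elements, so there are at least `|S|` pairs; 3-sets: each `i ∈ S` is in at least one, so `3 * (number) ≥ |S|`.
So `3 |U| ≥ 3 + 3 |S| + 3 |S| + |S|`. -/
def V3C_stmt : Prop := ∀ (d : ℕ) (U : Fam d), Dn U → ∅ ∈ U →
  ∃ S : Finset (Fin d), (∀ x ∈ hi U, x ⊆ S) ∧ 7 * S.card + 3 ≤ 3 * U.card

/-- UBX (short-medium; uses `HQ.UB_stmt`, `HQ.CC_stmt`). Proof. `D → ∞`, `m ≤ 7 D/3`, so `m ≤ 1 + D + C(D,2)` and `m ≤ 2 ^ D` for large `m`, and `2 m/D² ≤ 14/(3 D)` is small. `c 0 = 1`. By CC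
`c (min 1 (2 m/D²)) ≤ 1 + 1/100`; UB with `eps = 1/100` for the optimal set of `Pool.Agent.helper65.HC.lam_isGreatest`: `lam D m ^ 2 ≤ D (1 + 1/50) ≤ (3 m + 6)/7 * 51/50 ≤ 9 m/20`. -/
def UBX_stmt : Prop := ∃ m₀ : ℕ, ∀ m ≥ m₀, ∀ D : ℕ, 3 * m ≤ 7 * D → 7 * D ≤ 3 * m + 6 →
  lam D m ^ 2 ≤ 9 / 20 * m ∧ m ≤ 2 ^ D

/-- OPH (short; uses EMB V3C UBX). Proof. `S` from V3C, `7 |S| + 3 ≤ 3 m`, `D = (3 m + 6)/7`, so `|S| ≤ D`; EMB for `W = hi U`; `lam D m ≤ √(9 m/20)` (`Real.abs_le_sqrt`). -/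
def OPH_stmt : Prop := ∃ m₀ : ℕ, ∀ m ≥ m₀, ∀ (d : ℕ) (U : Fam d) (f : Finset (Fin d) → ℝ), Dn U → ∅ ∈ U → U.card = m →
  Ef (hi U) f ≤ √(9 / 20 * m) * N (hi U) f

/-- RES (short-medium). Proof. Multiply the eigen equation at `x ∈ hi U` by `f x` and sum:
`l N (hi U) f = Ef (hi U) f + ∑_{x ∈ U, |x| = 3} f x ∑_{i ∈ x} f(x - i)` (every edge inside `hi U` occurs twice, from above and from below; `f = 0` outside `U`)
`≤ L N + 3 φ ∑_{x ∈ U, |x| = 3} f x ≤ L N + 3 φ √(hi U).card √N` (Cauchy-Schwarz). So `(l - L) N ≤ 3 φ √(hi U).card √N`; square and divide by `N` (or `N = 0`). -/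
def RES_stmt : Prop := ∀ (d : ℕ) (U : Fam d) (l : ℝ) (f : Finset (Fin d) → ℝ) (L φ : ℝ), Pf U l f →
  (∀ x ∈ U, x.card = 2 → f x ≤ φ) → 0 ≤ φ → Ef (hi U) f ≤ L * N (hi U) f → L ≤ l →
  (l - L) ^ 2 * N (hi U) f ≤ 9 * φ ^ 2 * (hi U).card

/-- HB (short; uses RES EQ1). Proof. `l ≥ √(m/2) ≥ √(9m/20) = L` (`l ≥ 0` by EQ1), `(l - L)² ≥ m (√(1/2) - √(9/20))² = m (19/20 - 2 √(9/40)) ≥ m/760`, `9 * 760 = 6840 ≤ 7500`. -/
def HB_stmt : Prop := ∀ (d m : ℕ) (U : Fam d) (l : ℝ) (f : Finset (Fin d) → ℝ) (φ : ℝ), St m U l f → 1 ≤ m →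
  (∀ x ∈ U, x.card = 2 → f x ≤ φ) → 0 ≤ φ → m * N (hi U) f ≤ 7500 * φ ^ 2 * (hi U).card

/-- CNA (short). Proof. `U` is the disjoint union of the parts with `|x| = 0` (only `∅`), `1`, `2`, `≥ 3`. Singletons: at most `d`. -/
def CNA_stmt : Prop := ∀ (d : ℕ) (U : Fam d), ∅ ∈ U → U.card = 1 + nu U + ee U + (hi U).card ∧ nu U ≤ d

/-- CNP (short-medium). Proof. (a) The 4 subsets of `x` and, for each `k ∉ x` with `x ∪ k ∈ U`, the 4 sets `z ∪ k`, `z ⊆ x`, are different members of `U` (`z ∪ k` determines `z` and `k`). (b) For each 4-set `y ⊇ x` of `U` the sets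
`z ∪ (y \ x)`, `z ⊆ x`, are 4 members of `U`, and they determine `z` and `y`. -/
def CNP_stmt : Prop := ∀ (d : ℕ) (U : Fam d) (x : Finset (Fin d)), Dn U → x ∈ U → x.card = 2 →
  4 * (up x U + 1) ≤ U.card ∧ 4 * (four x U).card ≤ U.card

/-- CNS (short-medium). Proof. Among the `i` with `{i} ∈ U` choose `o` with `dg o U` maximal. `dg o U + 1 ≤ nu U`: the pairs `{o, i} ∈ U` give different singletons `{i} ∈ U`, `i ≠ o`. For `j ≠ o` with `{j} ∉ U`: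
`dg j U = 0`. Otherwise `dg j U ≤ dg o U`, `dg j U + 1 ≤ nu U`, and `dg j U + dg o U - 1 ≤ ee U` (at most one pair contains both), so `|U| ≥ 1 + nu U + ee U ≥ 1 + (dg j U + 1) + (2 dg j U - 1)`. -/
def CNS_stmt : Prop := ∀ (d : ℕ) (U : Fam d), Dn U → ∅ ∈ U → 1 ≤ nu U →
  ∃ o : Fin d, {o} ∈ U ∧ dg o U + 1 ≤ nu U ∧ dg o U ≤ ee U ∧ ∀ j, j ≠ o → 3 * dg j U + 1 ≤ U.card

/-- EQ1 (short-medium). Proof. Equation at `∅`: `l = ∑_i f {i} ≥ 0`. At `{i} ∈ U`: `l f {i} = 1 + ∑_{j ≠ i} f {i, j} = 1 + pd i U f` (`f = 0` outside `U`). `pd i U f ≤ s2 U f`. If `{i} ∉ U` then `f {i} = 0`.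
`l² = ∑_i l f {i} = ∑_{i, {i} ∈ U} (1 + pd i U f) = nu U + 2 s2 U f` (each pair of `U` occurs twice). `f ≤ f ∅ = 1`, so `l² ≤ nu U + 2 ee U ≤ 2 |U|`. -/
def EQ1_stmt : Prop := ∀ (d : ℕ) (U : Fam d) (l : ℝ) (f : Finset (Fin d) → ℝ), Pf U l f →
  0 ≤ l ∧ l = ∑ i, f {i} ∧ (∀ i, {i} ∈ U → l * f {i} = 1 + pd i U f) ∧ (∀ i, l * f {i} ≤ 1 + s2 U f) ∧
    l ^ 2 = nu U + 2 * s2 U f ∧ l ^ 2 ≤ 2 * U.card

/-- EQP (medium). Proof. `l f x = ∑_{i ∈ x} f(x - i) + ∑_{k ∉ x} f(x + k)`; multiply by `l`: for `x + k ∈ U`, `l f(x + k) = f x + ∑_{i ∈ x} f(x - i + k) + ∑_{q ∉ x + k} f(x + k + q)`, and `l f(x + k) = 0` if `x + k ∉ U`. So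
`l² f x = l ∑_{i ∈ x} f(x - i) + up x U * f x + ∑_{k : x + k ∈ U} ∑_{i ∈ x} f(x - i + k) + 2 ∑_{four x U} f` (last term: `≤`; each 4-set has two orders `k, q`). `x = {i, j}`, `x - i = {j}`; `∑_{k ∉ x} f {j, k} ≤ ∑_{k ≠ j} f {j, k} = l f {j} - 1 ≤ l f {j}`.
(It may be convenient to write `x = {i, j}`, `i ≠ j`, from the start.) -/
def EQP_stmt : Prop := ∀ (d : ℕ) (U : Fam d) (l : ℝ) (f : Finset (Fin d) → ℝ) (x : Finset (Fin d)), Pf U l f → 0 ≤ l → x ∈ U →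
  x.card = 2 → (l ^ 2 - up x U) * f x ≤ 2 * l * ∑ i ∈ x, f {i} + 2 * ∑ y ∈ four x U, f y

/-- EQS (medium). Proof. If `{j} ∉ U` the left side is 0. `l f {j} = 1 + ∑_{k ≠ j} f {j, k}`; multiply by `l`; `l f {j, k} = f {j} + f {k} + ∑_{q ≠ j, k} f {j, k, q}` if `{j, k} ∈ U`, else 0. So
`l² f {j} = l + dg j U * f {j} + ∑_{k : {j,k} ∈ U} f {k} + (≤) 2 ∑_{thr j U} f` and `∑_k f {k} = l` (equation at `∅`). -/
def EQS_stmt : Prop := ∀ (d : ℕ) (U : Fam d) (l : ℝ) (f : Finset (Fin d) → ℝ) (j : Fin d), Pf U l f → 0 ≤ l →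
  (l ^ 2 - dg j U) * f {j} ≤ 2 * l + 2 * ∑ y ∈ thr j U, f y

/-- P2 (short-medium; uses HB CNA CNP EQ1 EQP). Proof. Let `φ = f x₀` be the maximum of `f` over the pairs of `U` (if there is none, nothing to prove). EQP at `x₀`: `l² - up x₀ U ≥ m/2 - m/4 = m/4` (CNP); `l f {i} ≤ 1 + s2`;
`∑_{four x₀ U} f ≤ √((four x₀ U).card * N (hi U) f) ≤ √(m/4 * 7500 φ²)` (Cauchy-Schwarz; HB with `(hi U).card ≤ m`). So `m/4 φ ≤ 4 (1 + s2) + √(7500 m) φ`, and `√(7500 m) ≤ m/8` for large `m`. -/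
def P2_stmt : Prop := ∃ m₀ : ℕ, ∀ m ≥ m₀, ∀ (d : ℕ) (U : Fam d) (l : ℝ) (f : Finset (Fin d) → ℝ), St m U l f →
  ∀ x ∈ U, x.card = 2 → m * f x ≤ 32 * (s2 U f + 1)

/-- BASE (short-medium; uses EQ1). Proof. Parity: `l ∑_{|x| even} f² = ∑_{edges} f f = l ∑_{|x| odd} f²` (multiply the eigen equation by `f x` and sum over the even / odd members of `U`; the neighbours of an even set are odd), and
`l ≥ 0`; if `l = 0` the left side is 0. So `1 + u2 ≤ ∑_{even} f² = ∑_{odd} f² ≤ ∑_i f {i}² + N (hi U) f`; multiply by `l²`; `l f {i} = 1 + pd i U f` for `{i} ∈ U`, `f {i} = 0` otherwise. -/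
def BASE_stmt : Prop := ∀ (d : ℕ) (U : Fam d) (l : ℝ) (f : Finset (Fin d) → ℝ), Pf U l f →
  l ^ 2 * (1 + u2 U f) ≤ ∑ i ∈ univ.filter (fun i : Fin d => {i} ∈ U), (1 + pd i U f) ^ 2 + l ^ 2 * N (hi U) f

/-- DOM (short-medium). Proof. `∑_i ∑_{x ∋ i} f x = ∑_x |x| f x`. `∑_i (∑_{x ∋ i} f x)² = ∑_{x, y ∈ P} |x ∩ y| f x f y ≤ ∑_{x, y} f x f y + ∑_x f x²` since `|x ∩ y| ≤ 1` for `x ≠ y` and `|x ∩ x| = 2`. -/
def DOM_stmt : Prop := ∀ (d : ℕ) (P : Fam d) (f : Finset (Fin d) → ℝ), (∀ x ∈ P, x.card = 2) → (∀ x, 0 ≤ f x) →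
  ∑ i, ∑ x ∈ P.filter (fun x => i ∈ x), f x = 2 * ∑ x ∈ P, f x ∧
  ∑ i, (∑ x ∈ P.filter (fun x => i ∈ x), f x) ^ 2 ≤ (∑ x ∈ P, f x) ^ 2 + ∑ x ∈ P, f x ^ 2

/-- DOMA (short-medium; uses DOM). Proof. `(1 + pd)² = 1 + 2 pd + pd²`, `∑_{i, {i} ∈ U} 1 = nu U`, DOM for `P` = the pairs of `U` (`pd i U f = 0` if `{i} ∉ U`, or just `≥ 0`). Cauchy-Schwarz. -/
def DOMA_stmt : Prop := ∀ (d : ℕ) (U : Fam d) (f : Finset (Fin d) → ℝ), Dn U → (∀ x, 0 ≤ f x) →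
  ∑ i ∈ univ.filter (fun i : Fin d => {i} ∈ U), (1 + pd i U f) ^ 2 ≤ nu U + 4 * s2 U f + s2 U f ^ 2 + u2 U f ∧
  s2 U f ^ 2 ≤ ee U * u2 U f

/-- DOMB (medium; uses DOM). Proof. `w1 = pd o U f`, `w0` = sum over the pairs without `o`. For `i ≠ o` let `a_i = f {o, i}` (0 if not in `U`), `b_i = ∑_{x ∈ U, |x| = 2, i ∈ x, o ∉ x} f x`; `pd i = a_i + b_i`.
`∑_i (1 + pd i)² = (1 + w1)² + ∑_{i ≠ o, {i} ∈ U} (1 + a_i + b_i)² ≤ nu U + 4 w1 + w1² + v1 + 2 ∑ b_i + ∑ b_i² + 2 ∑ a_i b_i`, `∑ b_i = 2 w0`, `∑ b_i² ≤ w0² + v0` (DOM for the pairs without `o`),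
`a_i ≤ φ`. Cauchy-Schwarz for `w1² ≤ dg o U * v1`. -/
def DOMB_stmt : Prop := ∀ (d : ℕ) (U : Fam d) (f : Finset (Fin d) → ℝ) (o : Fin d) (φ : ℝ), Dn U → {o} ∈ U → (∀ x, 0 ≤ f x) → 0 ≤ φ →
  (∀ x ∈ U, x.card = 2 → f x ≤ φ) →
  ∃ w1 w0 v1 v0 : ℝ, 0 ≤ w1 ∧ 0 ≤ v1 ∧ w0 = ∑ x ∈ U.filter (fun x => x.card = 2 ∧ o ∉ x), f x ∧
    v0 = ∑ x ∈ U.filter (fun x => x.card = 2 ∧ o ∉ x), f x ^ 2 ∧ u2 U f = v1 + v0 ∧ w1 ^ 2 ≤ dg o U * v1 ∧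
    (U.filter (fun x => x.card = 2 ∧ o ∉ x)).card + dg o U = ee U ∧
    ∑ i ∈ univ.filter (fun i : Fin d => {i} ∈ U), (1 + pd i U f) ^ 2 ≤
      nu U + 4 * w1 + w1 ^ 2 + v1 + 4 * w0 + v0 + w0 ^ 2 + 4 * φ * w0

/-- HVA (medium; uses HB CNA EQ1 EQS). Proof. Let `φ` be the maximum of `f {j}`, `j ≠ o` (`j` fixed: `φ ≥ f {j} ≥ 0`, attained at `j₀`). Every pair contains some `i ≠ o`, so `f x ≤ f {i} ≤ φ` for all pairs (`Pf.mono`). EQS at `j₀`: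
`l² - dg j₀ U ≥ m/2 - m/3 = m/6`; `l ≤ √(2 m)`; `∑_{thr j₀ U} f ≤ √((hi U).card * N (hi U) f) ≤ √(7500 m) φ` (HB, `(hi U).card ≤ m`). So `m/6 φ ≤ 2 √(2m) + 2 √(7500 m) φ`; for large `m`
`2 √(7500 m) ≤ m/12`, so `m φ ≤ 24 √(2 m)`, `m φ² ≤ 1152`. -/
def HVA_stmt : Prop := ∃ m₀ : ℕ, ∀ m ≥ m₀, ∀ (d : ℕ) (U : Fam d) (l : ℝ) (f : Finset (Fin d) → ℝ) (o : Fin d), St m U l f →
  (∀ j, j ≠ o → 3 * dg j U + 1 ≤ m) → ∀ j, j ≠ o → m * f {j} ^ 2 ≤ 1152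

/-- HVB (short-medium; uses HB CNA CNP EQ1 EQP). Proof. `φ = √(1152/m)`: all pairs have `f x ≤ φ` (they contain some `j ≠ o`; `Pf.mono`). HB: `m N (hi U) f ≤ 7500 * 1152` (`(hi U).card ≤ m`). For a pair `x` without `o`, EQP:
`l² - up x U ≥ m/4`, `2 l ∑_{i ∈ x} f {i} ≤ 2 √(2m) * 2 √(1152/m) = 192`, `2 ∑_{four x U} f ≤ 2 √(m/4 * N) ≤ √(7500 * 1152) ≤ 2940`. So `m f x ≤ 12528`. -/
def HVB_stmt : Prop := ∀ (d m : ℕ) (U : Fam d) (l : ℝ) (f : Finset (Fin d) → ℝ) (o : Fin d), St m U l f → 1 ≤ m →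
  (∀ j, j ≠ o → m * f {j} ^ 2 ≤ 1152) → (∀ x ∈ U, x.card = 2 → m * f x ^ 2 ≤ 1152) ∧
    ∀ x ∈ U, x.card = 2 → o ∉ x → m * f x ≤ 12600

/-! ## Part 2: real numbers -/

/-- N1 (short). Proof. `r = √((a-1-b)² + 16 b) ≥ |a - 1 - b|`, `r² = ...`. Last item: `(G - a) + (G - b - 1) v ≥ 2 √((G-a)(G-b-1) v) = 2 √(4 b v) ≥ 4 s`, and `s² ≤ b v`. -/
def N1_stmt : Prop := ∀ a b : ℝ, 0 ≤ b →
  (G a b - a) * (G a b - b - 1) = 4 * b ∧ a ≤ G a b ∧ b + 1 ≤ G a b ∧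
  (∀ y, (y - a) * (y - b - 1) ≤ 4 * b → y ≤ G a b) ∧
  (∀ y, a ≤ y → b + 1 ≤ y → 4 * b ≤ (y - a) * (y - b - 1) → G a b ≤ y) ∧
  ∀ s v : ℝ, 0 ≤ s → 0 ≤ v → s ^ 2 ≤ b * v → a + 4 * s + s ^ 2 + v ≤ G a b * (1 + v)

/-- N2 (short; uses N1). Proof. `p = G a b - a ≥ 0`, `q = G a b - b - 1 ≥ 0`, `p q = 4 b`. `G a b ≤ m` by N1 (`(m - a)(m - b - 1) ≥ (b+1) a ≥ 4 b`). `de = g (p + 4)/(2m) ≤ g` (`p + 4 ≤ m - a + 4 ≤ 2 m`). At `y = G a b + de`: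
`(y - a)(y - b - g - 1) = (p + de)(q + de - g) = 4 b + de (p + q + de - g) - g p ≤ 4 b + de * 2m - g p = 4 b + 4 g`, since `p + q = 2 G - a - b - 1 ≤ 2 m`. N1. -/
def N2_stmt : Prop := ∀ a b g m : ℝ, 4 ≤ a → 0 ≤ b → 0 ≤ g → a + b + g + 1 ≤ m →
  G a b + g * (G a b - a + 4) / (2 * m) ≤ G a (b + g)

/-- N3 (short). Proof. `(2n - m)² + 16 (m - 1 - n) = (2n - m - 4)² + 8 m - 32` is convex in `n`, so it is at most the maximum of the values at `a` and `b`; `√` is monotone. -/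
def N3_stmt : Prop := (∀ m a b n : ℝ, a ≤ n → n ≤ b → F m n ≤ max (F m b) (F m a)) ∧
  (∀ m n : ℝ, F m n = G n (m - 1 - n) ∧ m / 2 ≤ F m n)

/-- N4 (short). Proof. `n = (m+1)/2`. `m` even: `F = (m + √(8 m - 16))/2`; `m` odd: `F = (m + √(8 m - 23))/2`; `16 (ν - 1) ≤ 8 m - 24`. -/
def N4_stmt : Prop := ∀ m ν : ℕ, 1 ≤ ν → 2 * ν + 1 ≤ m → (m : ℝ) / 2 + 2 * √((ν : ℝ) - 1) ≤ F m (((m + 1) / 2 : ℕ) : ℝ)

/-- N5 (short). Proof. `s = √(ν - 1)`. `G ν (ν - 1 - h) = ν - h/2 + √(h² + 16 s² - 16 h)/2`. If `h ≤ 4 s`: `√(...)/2 ≤ 2 s + h/4` since `(h² - 16 h + 16 s²)/4 ≤ 4 s² + s h + h²/16` (`3 h/16 ≤ s + 4`).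
If `h ≥ 4 s`: `√(...)/2 ≤ s + h/2` since `4 s² ≤ s² + s h + 4 h`. -/
def N5_stmt : Prop := ∀ ν h : ℝ, 1 ≤ ν → 0 ≤ h → h ≤ ν - 1 → G ν (ν - 1 - h) ≤ ν + 2 * √(ν - 1) - min (h / 4) (√(ν - 1))

/-- CAN (medium; uses N1 N2 N3 N4 N5). Proof. `p = 2 s`, so `X = ν + p`; `K = 2 C³`: `X H ≤ 2 m * C φ² T/m ≤ K (p+2)² T/m²` (`φ ≤ C (p+2)/m`). Large `m`: `√m ≥ 16 K + 100`.
(1) `p ≤ 3 √m`: the main inequality gives `(X - 1) v ≤ p + p²/4 + X H`. If `e = 0` then `s = 0`. Otherwise `v ≥ p²/(4e)`; `X - 1 - e ≥ p` (`e + 1 ≤ ν`), so `p³ ≤ 4 e (p + X H) ≤ 2 m p + 2 K (p+2)²` (`2 e ≤ m`, `T ≤ m`).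
If `p > 3 √m` (so `p ≥ 2`, `p + 2 ≤ 2 p`, `p ≥ 16 K`): `p² ≤ 2 m + 8 K p ≤ 2 m + p²/2`, `p² ≤ 4 m`, contradiction.
(2) `p₀ = G ν e - ν ≥ 0`; `p₀² ≤ p₀ (G ν e - e - 1) = 4 e ≤ 2 m`. `X ≤ G ν e + T (p₀ + 4)/(2 m)`: clear if `X ≤ G ν e`. Otherwise `D = X - G ν e > 0`, N1 and the main inequality give `D ≤ D (1 + v) ≤ X H ≤ K (p+2)² T/m²
≤ (4 K/√m)(p + 2) T/m ≤ (1/4)(p₀ + D + 2) T/m`, so `D ≤ (1/3)(p₀ + 2) T/m`.
(3) `ν = X - p ≥ m/2 - 3 √m ≥ 4`. If `e + T + 1 ≤ ν`: N2 with `g = T` gives `X ≤ G ν (e + T) = F m ν ≤ Xs d m` (N3: `(m+1)/2 ≤ ν ≤ min d (m-1)`). Otherwise `g = ν - 1 - e`, `T = g + (m - 2 ν)`, `m - 2 ν ≥ 1`: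
`X ≤ G ν (ν - 1) + (m - 2 ν)(p₀ + 4)/(2m) ≤ ν + 2 √(ν-1) + (m - 2ν)/2` (N5 with `h = 0`; `p₀ + 4 ≤ m`) `≤ F m ((m+1)/2)` (N4). -/
def CAN_stmt : Prop := ∀ C : ℝ, 1 ≤ C → ∃ m₀ : ℕ, ∀ (m ν e T d : ℕ) (X H s v φ : ℝ), m₀ ≤ m → m = 1 + ν + e + T → e + 1 ≤ ν →
  ν ≤ d → 0 ≤ s → 0 ≤ v → 0 ≤ H → 0 ≤ φ → X = ν + 2 * s → s ^ 2 ≤ e * v → X ≤ 2 * m → m / 2 ≤ X →
  X * (1 + v) ≤ ν + 4 * s + s ^ 2 + v + X * H → m * H ≤ C * φ ^ 2 * T → m * φ ≤ C * (2 * s + 2) → X ≤ Xs d m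

/-- CBN (medium; uses N1 N4 N5). Proof. N1: `ν + 4 w1 + w1² + v1 ≤ G ν μ (1 + v1) ≤ G ν μ (1 + v1 + v0)`. So `X ≤ G ν μ` or `X - G ν μ ≤ 4 w0 + v0 + w0² + 4 φ w0 + X H`. `w0 ≤ (e - μ) ψ ≤ C (e - μ)/m ≤ C`, `v0 ≤ ψ w0 ≤ C w0`, `φ ≤ C` (`φ² ≤ C/m ≤ C²`),
`X H ≤ 2 m * C φ² T/m ≤ 2 C² T/m`: in total `X ≤ G ν μ + K (e - μ + T)/m`, `K = C (4 + 6 C) + 2 C²`. `h = ν - 1 - μ`, `T' = m - 2 ν ≥ 1` (`ν ≤ e`), `e - μ + T = T' + h`. N5: `X ≤ ν + 2 s - min (h/4) s + K (T' + h)/m`, `s = √(ν-1)`; N4: enough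
`K (T' + h)/m ≤ T'/2 + min (h/4) s`. `m ≥ 8 K`: `K T'/m ≤ T'/8`, `K h/m ≤ h/8`. If the minimum is `s`: `K h/m ≤ K` (`h ≤ m`), and `T'/4 + s ≥ K` if `T' ≥ 4 K`, and if `T' < 4 K` then `ν - 1 = (m - T')/2 - 1 ≥ K²` for large `m`. -/
def CBN_stmt : Prop := ∀ C : ℝ, 1 ≤ C → ∃ m₀ : ℕ, ∀ (m ν e T μ : ℕ) (X H w1 w0 v1 v0 φ ψ : ℝ), m₀ ≤ m → m = 1 + ν + e + T → ν ≤ e →
  μ + 1 ≤ ν → μ ≤ e → 0 ≤ w1 → 0 ≤ w0 → 0 ≤ v1 → 0 ≤ v0 → 0 ≤ H → 0 ≤ φ → 0 ≤ ψ → X ≤ 2 * m →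
  w1 ^ 2 ≤ μ * v1 → v0 ≤ ψ * w0 → w0 ≤ ((e : ℝ) - μ) * ψ → m * φ ^ 2 ≤ C → m * ψ ≤ C → m * H ≤ C * φ ^ 2 * T →
  X * (1 + (v1 + v0)) ≤ ν + 4 * w1 + w1 ^ 2 + v1 + 4 * w0 + v0 + w0 ^ 2 + 4 * φ * w0 + X * H →
  X ≤ F m (((m + 1) / 2 : ℕ) : ℝ)

/-! ## Part 3: assembly -/

/-- CA (short; uses HB CNA EQ1 P2 BASE DOMA CAN). Proof. CAN with `C = 7500`, `X = l²`, `H = N (hi U) f`, `s = s2 U f`, `v = u2 U f`, `φ = 32 (s2 U f + 1)/m` (P2, HB). -/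
def CA_stmt : Prop := ∃ m₀ : ℕ, ∀ m ≥ m₀, ∀ (d : ℕ) (U : Fam d) (l : ℝ) (f : Finset (Fin d) → ℝ), St m U l f →
  ee U + 1 ≤ nu U → l ^ 2 ≤ Xs d m

/-- CB (short-medium; uses HB CNA CNS EQ1 HVA HVB BASE DOMB CBN). Proof. `ν = nu U ≥ 1` (otherwise `U = {∅}`, `m = 1`: if `nu U = 0` then by `Dn` every member of `U` is empty). `o` from CNS, HVA, HVB; `φ = √(1152/m)`, `ψ = 12600/m`; CBN with `C = 12600`,
`μ = dg o U`, `X = l²`, `H = N (hi U) f`; `v0 ≤ ψ w0` and `w0 ≤ (e - μ) ψ` termwise. -/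
def CB_stmt : Prop := ∃ m₀ : ℕ, ∀ m ≥ m₀, ∀ (d : ℕ) (U : Fam d) (l : ℝ) (f : Finset (Fin d) → ℝ), St m U l f →
  nu U ≤ ee U → l ^ 2 ≤ Xs d m

/-- UP (short; uses OPH CA CB N3). Proof. If `l² > Xs d m` then `l² ≥ m/2` (N3), `St m U l f` by OPH; CA or CB: contradiction. -/
def UP_stmt : Prop := ∃ m₀ : ℕ, ∀ m ≥ m₀, ∀ (d : ℕ) (U : Fam d) (l : ℝ) (f : Finset (Fin d) → ℝ), Pf U l f → U.card = m →
  l ^ 2 ≤ Xs d m

/-- LBV (medium; uses TRN N1). Proof. `μ = m - 1 - n ≤ n - 1`. `W` = `∅`, the `{i}` for `i < n`, the `{0, j}` for `1 ≤ j ≤ μ`; `|W| = m`, `m ≤ 2 n ≤ 2 d ≤ 2 ^ d`. `X = F m n = G n μ`, `la = √X`, `X > μ + 1` (if `μ ≥ 1` by N1, `(X - n)(X - μ - 1) = 4 μ > 0`; if `μ = 0`, `X ≥ n > 1`).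
`cc = 2/(X - μ - 1)`. Test vector: `f ∅ = 1`, `f {0, j} = cc` (`1 ≤ j ≤ μ`), `f {0} = (1 + μ cc)/la`, `f {j} = (1 + cc)/la` (`1 ≤ j ≤ μ`), `f {j} = 1/la` (`μ < j < n`). It is an eigenvector of the induced graph: `∑_i f {i} = (n + 2 μ cc)/la = la` as
`(X - n)(X - μ - 1) = 4 μ`; `f {0} + f {j} = (2 + (1 + μ) cc)/la = la cc`. So `Ef W f = la N W f`, `N W f > 0`; TRN gives `la ≤ lam d m`. [`Ef W f = 2 (f ∅ ∑ f {i} + ∑_j f {0,j} (f {0} + f {j}))`, and `N W f = 1 + ∑ f {i}² + μ cc²`, where `la² ∑ f {i}² = la ∑ f {i} (1 + ...)`.] -/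
def LBV_stmt : Prop := ∀ d m n : ℕ, 4 ≤ m → m ≤ 2 * n → n ≤ d → n + 1 ≤ m → 0 ≤ lam d m ∧ F m n ≤ lam d m ^ 2

/-- FIN (short-medium; uses UPP UP LBV). Proof. `m ≤ 2 ^ d`, `Pool.Agent.helper65.HC.lam_isGreatest`: an optimal `U` with `IsTop U (lam d m)`; UPP: `A, l, f` with `lam d m ≤ l`, `l² ≤ Xs d m` by UP; `0 ≤ lam d m` by LBV. Lower bound: LBV with `n = min d (m-1)` and `n = (m+1)/2`. -/
def FIN_stmt : Prop := ∃ m₀ : ℕ, ∀ d m : ℕ, m₀ ≤ m → m ≤ 2 * d →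
  0 ≤ lam d m ∧ lam d m ^ 2 = Xs d m ∧
    IsGreatest {t | ∃ U : Finset (V d), U.card = m ∧ IsTop U t} (lam d m)

end

end Pool.Agent.helper9.HX
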