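import Pool.Agent.helper9.HQ.Main
import Pool.Agent.helper9.HX.Spec
import Pool.Agent.helper9.HX.MON
import Pool.Agent.helper9.HX.TRN
import Pool.Agent.helper9.HX.EMB
import Pool.Agent.helper9.HX.CAN
import Pool.Agent.helper97.HX.BASE
import Pool.Agent.helper71.HX.CA
import Pool.Agent.helper98.HX.CB
import Pool.Agent.helper99.HX.CBN
import Pool.Agent.helper10.HX.CNA
import Pool.Agent.helper45.HX.CNP
import Pool.Agent.helper54.HX.CNS
import Pool.Agent.helper37.HX.DOM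
import Pool.Agent.helper75.HX.DOMA
import Pool.Agent.helper79.HX.DOMB
import Pool.Agent.helper63.HX.EQ1
import Pool.Agent.helper31.HX.EQP
import Pool.Agent.helper74.HX.EQS
import Pool.Agent.helper14.HX.FIN
import Pool.Agent.helper27.HX.HB
import Pool.Agent.helper27.HX.HVA
import Pool.Agent.helper27.HX.HVB
import Pool.Agent.helper30.HX.LBV
import Pool.Agent.helper68.HX.N1
import Pool.Agent.helper17.HX.N2
import Pool.Agent.helper17.HX.N3
import Pool.Agent.helper85.HX.N4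
import Pool.Agent.helper17.HX.N5
import Pool.Agent.helper89.HX.OPH
import Pool.Agent.helper27.HX.P2
import Pool.Agent.helper64.HX.RES
import Pool.Agent.helper90.HX.UBX
import Pool.Agent.helper49.HX.UP
import Pool.Agent.helper71.HX.UPP
import Pool.Agent.helper35.HX.V3C

/-!
Assembly of the proof of the exact value for at most `2 d` vertices.
-/

namespace Pool.Agent.helper9.HX

theorem hqUB : HQ.UB_stmt := by
  have hCM : HQ.CM_stmt := HQ.CM
  have hCC : HQ.CC_stmt := HQ.CC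
  have hSTAR : HQ.STAR_stmt := HQ.STAR
  have hFA : HQ.FA_stmt := HQ.FA hSTAR hCM
  have hFB : HQ.FB_stmt := HQ.FB hSTAR hCM
  have hLW : HQ.LW_stmt := HQ.IND HQ.TW HQ.DL HQ.TYP HQ.BAS HQ.MX HQ.K1 HQ.K2 HQ.KA1 HQ.KA2 HQ.KB1 HQ.KB2 hFA hFB hCM
  have hGL : HQ.GL_stmt := HQ.GLr hLW HQ.SRT hCM
  exact HQ.UB HQ.DC HQ.EV HQ.LOC (HQ.DSC HQ.EV) HQ.CUT HQ.QF hGL hCM hCC

theorem main : FIN_stmt := by
  have hTRN : TRN_stmt := TRN
  have hEMB : EMB_stmt := EMB hTRN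
  have hUBX : UBX_stmt := UBX hqUB HQ.CC
  have hOPH : OPH_stmt := OPH hEMB V3C hUBX
  have hEQ1 : EQ1_stmt := EQ1
  have hHB : HB_stmt := HB RES hEQ1
  have hCNA : CNA_stmt := CNA
  have hCNP : CNP_stmt := CNP
  have hP2 : P2_stmt := P2 hHB hCNA hCNP hEQ1 EQP
  have hBASE : BASE_stmt := BASE hEQ1
  have hDOM : DOM_stmt := DOM
  have hDOMA : DOMA_stmt := DOMA hDOM
  have hDOMB : DOMB_stmt := DOMB hDOM
  have hHVA : HVA_stmt := HVA hHB hCNA hEQ1 EQS
  have hHVB : HVB_stmt := HVB hHB hCNA hCNP hEQ1 EQP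
  have hN1 : N1_stmt := N1
  have hN2 : N2_stmt := N2 hN1
  have hN3 : N3_stmt := N3
  have hCAN : CAN_stmt := CAN hN1 hN2 hN3 N4 N5
  have hCBN : CBN_stmt := CBN hN1 N4 N5
  have hCA : CA_stmt := CA hHB hCNA hEQ1 hP2 hBASE hDOMA hCAN
  have hCB : CB_stmt := CB hHB hCNA CNS hEQ1 hHVA hHVB hBASE hDOMB hCBN
  have hUP : UP_stmt := UP hOPH hCA hCB hN3
  have hUPP : UPP_stmt := UPP HQ.DC MON
  have hLBV : LBV_stmt := LBV hTRN hN1
  exact FIN hUPP hUP hLBV

end Pool.Agent.helper9.HX
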